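import Mathlib

set_option autoImplicit false

/-!
# Explicit near-linear sample sets for sparse trigonometric polynomials (MP_66dcb2_lc)
-/

namespace Pool.Agent.Results.MP_66dcb2_lc.ExplicitSamples

open Finset

/-! ## Definitions used in the statement -/

/-- The value at `2 π a / m` of the trigonometric polynomial with coefficients `c`. -/
noncomputable def val (c : ℤ →₀ ℂ) (a m : ℕ) : ℂ :=
  ∑ ω ∈ c.support, c ω * Complex.exp (Complex.I * ω * (2 * Real.pi * a / m))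

/-- `z` lies in `2 ^ (-b) ℤ[i]`. -/
def Grid (b : ℕ) (z : ℂ) : Prop := ∃ s t : ℤ, z = (s + t * Complex.I) / 2 ^ b

/-- Admissible inputs: at most `k` terms, integer frequencies of absolute value at most `N`,
coefficients in `2 ^ (-B) ℤ[i]` with absolute value between `2 ^ (-B)` and `2 ^ B`. -/
structure Adm (k N B : ℕ) (c : ℤ →₀ ℂ) : Prop where
  card : c.support.card ≤ k
  deg : ∀ ω ∈ c.support, |ω| ≤ N
  grid : ∀ ω ∈ c.support, Grid B (c ω)
  lower : ∀ ω ∈ c.support, 1 / 2 ^ B ≤ ‖c ω‖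
  upper : ∀ ω ∈ c.support, ‖c ω‖ ≤ 2 ^ B

/-- `v` is a possible answer of the oracle with word length `w` if the true value is `z`:
a nearest point of `2 ^ (-w) ℤ[i]`. -/
def Ans (w : ℕ) (z v : ℂ) : Prop := Grid w v ∧ ∀ u, Grid w u → ‖z - v‖ ≤ ‖z - u‖

/-- The digit weight: the product of (digit + 1) over the `r` lowest base-`q` digits of `x`. -/
def wt (q r x : ℕ) : ℕ := ∏ i ∈ range r, (x / q ^ i % q + 1)

/-- The sample set: all `x < q ^ r` of digit weight at most `K`. -/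
def cross (q r K : ℕ) : Finset ℕ := (range (q ^ r)).filter (fun x => wt q r x ≤ K)

/-! ## The size of the sample set -/

theorem sum_blocks {M : Type} [AddCommMonoid M] (f : ℕ → M) (m n : ℕ) :
    ∑ x ∈ range (n * m), f x = ∑ a ∈ range n, ∑ b ∈ range m, f (a * m + b) := by
  induction n with
  | zero => simp
  | succ n ih => rw [Nat.succ_mul, sum_range_add, ih, sum_range_succ]

theorem digit_low (q r a b i : ℕ) (hi : i < r) :
    (a * q ^ r + b) / q ^ i % q = b / q ^ i % q := by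
  rcases Nat.eq_zero_or_pos q with hq | hq
  · subst hq
    rw [zero_pow (by omega)]
    simp
  obtain ⟨d, hd⟩ : ∃ d, r = i + 1 + d := ⟨r - i - 1, by omega⟩
  have h1 : a * q ^ r + b = b + q ^ i * (q * (a * q ^ d)) := by
    rw [hd]; ring
  rw [h1, Nat.add_mul_div_left _ _ (pow_pos hq i), Nat.add_mul_mod_self_left]

theorem wt_succ (q r a b : ℕ) (ha : a < q) (hb : b < q ^ r) :
    wt q (r + 1) (a * q ^ r + b) = (a + 1) * wt q r b := by
  unfold wt
  rw [prod_range_succ]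
  have h1 : ∀ i ∈ range r, ((a * q ^ r + b) / q ^ i % q + 1) = (b / q ^ i % q + 1) := by
    intro i hi
    rw [digit_low q r a b i (mem_range.1 hi)]
  rw [prod_congr rfl h1]
  have h2 : (a * q ^ r + b) / q ^ r % q = a := by
    have hq : 0 < q ^ r := by omega
    rw [mul_comm a, Nat.mul_add_div hq, Nat.div_eq_of_lt hb, add_zero, Nat.mod_eq_of_lt ha]
  rw [h2, mul_comm]

theorem wt_pos (q r x : ℕ) : 0 < wt q r x := prod_pos fun _ _ => Nat.succ_pos _

theorem sum_inv_wt (q r : ℕ) :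
    ∑ x ∈ range (q ^ r), (1 / (wt q r x : ℝ)) = (∑ d ∈ range q, 1 / ((d : ℝ) + 1)) ^ r := by
  induction r with
  | zero => simp [wt]
  | succ r ih =>
    rw [pow_succ' q r, sum_blocks, pow_succ', ← ih, sum_mul_sum]
    apply sum_congr rfl
    intro a ha
    apply sum_congr rfl
    intro b hb
    rw [wt_succ q r a b (mem_range.1 ha) (mem_range.1 hb)]
    push_cast
    rw [one_div_mul_one_div]

theorem card_cross (q r K : ℕ) :
    ((cross q r K).card : ℝ) ≤ K * (1 + Real.log q) ^ r := by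
  have h1 : ((cross q r K).card : ℝ) ≤ ∑ x ∈ range (q ^ r), (K : ℝ) * (1 / (wt q r x : ℝ)) := by
    unfold cross
    rw [card_filter]
    push_cast
    apply sum_le_sum
    intro x _
    have hw : (0 : ℝ) < (wt q r x : ℝ) := by exact_mod_cast wt_pos q r x
    split_ifs with h
    · rw [mul_one_div, le_div_iff₀ hw, one_mul]
      exact_mod_cast h
    · positivity
  rw [← mul_sum, sum_inv_wt q r] at h1
  refine h1.trans (mul_le_mul_of_nonneg_left ?_ (Nat.cast_nonneg _))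
  apply pow_le_pow_left₀
  · positivity
  · have h2 := harmonic_le_one_add_log q
    unfold harmonic at h2
    push_cast at h2
    simpa [one_div] using h2

/-! ## One level -/

theorem diff_bound {ι : Type} (s : Finset ι) (α z : ι → ℂ) (T : Finset ℂ)
    (hT : ∀ t ∈ T, ‖t‖ ≤ 1) (M : ℝ) : ∀ m : ℕ,
    (∀ y ≤ m + T.card, ‖∑ i ∈ s, α i * z i ^ y‖ ≤ M) →
    ∀ y ≤ m, ‖∑ i ∈ s, α i * z i ^ y * ∏ t ∈ T, (z i - t)‖ ≤ 2 ^ T.card * M := by
  classical
  induction T using Finset.induction_on with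
  | empty =>
    intro m h y hy
    simpa using h y (by simpa using hy)
  | insert t T ht ih =>
    intro m h y hy
    rw [card_insert_of_notMem ht] at h ⊢
    have hT' : ∀ t ∈ T, ‖t‖ ≤ 1 := fun x hx => hT x (mem_insert_of_mem hx)
    have h1 := ih hT' (m + 1) (fun y hy => h y (by omega))
    have e : ∑ i ∈ s, α i * z i ^ y * ∏ u ∈ insert t T, (z i - u) =
        (∑ i ∈ s, α i * z i ^ (y + 1) * ∏ u ∈ T, (z i - u)) -
          t * ∑ i ∈ s, α i * z i ^ y * ∏ u ∈ T, (z i - u) := by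
      rw [mul_sum, ← sum_sub_distrib]
      apply sum_congr rfl
      intro i _
      rw [prod_insert ht]
      ring
    rw [e]
    have h2 := h1 (y + 1) (by omega)
    have h3 := h1 y (by omega)
    have h4 : ‖t * ∑ i ∈ s, α i * z i ^ y * ∏ u ∈ T, (z i - u)‖ ≤ 2 ^ T.card * M := by
      rw [norm_mul]
      calc _ ≤ 1 * ‖∑ i ∈ s, α i * z i ^ y * ∏ u ∈ T, (z i - u)‖ :=
            mul_le_mul_of_nonneg_right (hT t (mem_insert_self _ _)) (norm_nonneg _)
        _ ≤ _ := by rw [one_mul]; exact h3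
    calc _ ≤ ‖∑ i ∈ s, α i * z i ^ (y + 1) * ∏ u ∈ T, (z i - u)‖ +
          ‖t * ∑ i ∈ s, α i * z i ^ y * ∏ u ∈ T, (z i - u)‖ := norm_sub_le _ _
      _ ≤ 2 ^ T.card * M + 2 ^ T.card * M := add_le_add h2 h4
      _ = 2 ^ (T.card + 1) * M := by ring

/-- the root of unity `exp (2 π i b / q)` -/
noncomputable def zt (q b : ℕ) : ℂ := Complex.exp (Complex.I * ((2 * Real.pi * b / q : ℝ) : ℂ))

theorem zt_norm (q b : ℕ) : ‖zt q b‖ = 1 := by
  unfold zt
  rw [mul_comm, Complex.norm_exp_ofReal_mul_I]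

theorem sin_lower (q d : ℕ) (h1 : 1 ≤ d) (h2 : d < q) : 2 / (q : ℝ) ≤ Real.sin (Real.pi * d / q) := by
  have hq : (0 : ℝ) < q := by exact_mod_cast (by omega : 0 < q)
  have hpi := Real.pi_pos
  have key : ∀ e : ℕ, 1 ≤ e → 2 * e ≤ q → 2 / (q : ℝ) ≤ Real.sin (Real.pi * e / q) := by
    intro e he1 he2
    have he1' : (1 : ℝ) ≤ e := by exact_mod_cast he1
    have he2' : 2 * (e : ℝ) ≤ q := by exact_mod_cast he2
    have h3 : 0 ≤ Real.pi * e / q := by positivity
    have h4 : Real.pi * e / q ≤ Real.pi / 2 := by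
      rw [div_le_div_iff₀ hq (by norm_num)]
      nlinarith
    have h5 := Real.mul_le_sin h3 h4
    refine le_trans ?_ h5
    have h6 : 2 / Real.pi * (Real.pi * e / q) = 2 * e / q := by
      field_simp
    rw [h6]
    apply div_le_div_of_nonneg_right _ hq.le
    linarith
  rcases le_or_gt (2 * d) q with h | h
  · exact key d h1 h
  · have h3 := key (q - d) (by omega) (by omega)
    have h4 : Real.pi * ((q - d : ℕ) : ℝ) / q = Real.pi - Real.pi * d / q := by
      rw [Nat.cast_sub h2.le]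
      field_simp
    rw [h4, Real.sin_pi_sub] at h3
    exact h3

theorem zt_sub (q b b' : ℕ) (hb : b < q) (hb' : b' < q) (hne : b ≠ b') :
    4 / (q : ℝ) ≤ ‖zt q b - zt q b'‖ := by
  have key : ∀ b b' : ℕ, b < q → b' < b → 4 / (q : ℝ) ≤ ‖zt q b - zt q b'‖ := by
    intro b b' hb hlt
    have e : zt q b - zt q b' =
        zt q b' * (Complex.exp (Complex.I * ((2 * Real.pi * (b - b' : ℕ) / q : ℝ) : ℂ)) - 1) := by
      unfold zt
      rw [mul_sub, mul_one, ← Complex.exp_add, ← mul_add, ← Complex.ofReal_add]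
      congr 4
      rw [Nat.cast_sub hlt.le]
      ring
    rw [e, norm_mul, zt_norm, one_mul, Complex.norm_exp_I_mul_ofReal_sub_one]
    have h1 := sin_lower q (b - b') (by omega) (by omega)
    have h2 : 2 * Real.pi * ((b - b' : ℕ) : ℝ) / q / 2 = Real.pi * ((b - b' : ℕ) : ℝ) / q := by
      ring
    rw [h2, Real.norm_eq_abs]
    refine le_trans ?_ (le_abs_self _)
    calc 4 / (q : ℝ) = 2 * (2 / q) := by ring
      _ ≤ _ := by linarith
  rcases lt_or_gt_of_ne hne with h | h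
  · rw [norm_sub_rev]
    exact key b' b hb' h
  · exact key b b' hb h

theorem level (q : ℕ) (hq : 2 ≤ q) (A : Finset ℕ) (hA : ∀ b ∈ A, b < q) (α : ℕ → ℂ) (b₀ : ℕ)
    (hb₀ : b₀ ∈ A) : ∃ y < A.card, (2 / (q : ℝ)) ^ q * ‖α b₀‖ ≤ ‖∑ b ∈ A, α b * zt q b ^ y‖ := by
  classical
  have hqr : (2 : ℝ) ≤ q := by exact_mod_cast hq
  have hq0 : (0 : ℝ) < q := by linarith
  have hcard : 0 < A.card := card_pos.2 ⟨b₀, hb₀⟩
  obtain ⟨y₀, hy₀, hmax⟩ := exists_max_image (range A.card)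
    (fun y => ‖∑ b ∈ A, α b * zt q b ^ y‖) ⟨0, mem_range.2 hcard⟩
  refine ⟨y₀, mem_range.1 hy₀, ?_⟩
  set M := ‖∑ b ∈ A, α b * zt q b ^ y₀‖ with hM
  let T := (A.erase b₀).image (zt q)
  have hinj : Set.InjOn (zt q) (A.erase b₀ : Finset ℕ) := by
    intro b hb b' hb' he
    by_contra hne
    have h1 := zt_sub q b b' (hA b (mem_of_mem_erase hb)) (hA b' (mem_of_mem_erase hb')) hne
    rw [he, sub_self, norm_zero] at h1
    have : 0 < 4 / (q : ℝ) := by positivity
    linarith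
  have hTc : T.card = A.card - 1 := by
    rw [card_image_of_injOn hinj, card_erase_of_mem hb₀]
  have h1 := diff_bound A α (zt q) T (by
    intro t ht
    obtain ⟨b, _, rfl⟩ := mem_image.1 ht
    rw [zt_norm]) M 0 (by
      intro y hy
      apply hmax y
      rw [mem_range]
      omega) 0 le_rfl
  have h2 : ∑ i ∈ A, α i * zt q i ^ 0 * ∏ t ∈ T, (zt q i - t) =
      α b₀ * ∏ t ∈ T, (zt q b₀ - t) := by
    rw [← add_sum_erase A _ hb₀, sum_eq_zero, add_zero, pow_zero, mul_one]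
    intro b hb
    rw [prod_eq_zero (mem_image_of_mem _ hb) (sub_self _), mul_zero]
  rw [h2, norm_mul, hTc] at h1
  have h3 : (4 / (q : ℝ)) ^ (A.card - 1) ≤ ‖∏ t ∈ T, (zt q b₀ - t)‖ := by
    rw [norm_prod, ← hTc, ← prod_const]
    apply prod_le_prod
    · intro _ _
      positivity
    · intro t ht
      obtain ⟨b, hb, rfl⟩ := mem_image.1 ht
      exact zt_sub q b₀ b (hA b₀ hb₀) (hA b (mem_of_mem_erase hb)) (ne_of_mem_erase hb).symm
  have h4 : ‖α b₀‖ * (4 / (q : ℝ)) ^ (A.card - 1) ≤ 2 ^ (A.card - 1) * M :=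
    (mul_le_mul_of_nonneg_left h3 (norm_nonneg _)).trans h1
  have h5 : (2 / (q : ℝ)) ^ q ≤ (2 / (q : ℝ)) ^ (A.card - 1) := by
    apply pow_le_pow_of_le_one (by positivity)
    · rw [div_le_one hq0]
      exact hqr
    · have : A ⊆ range q := fun b hb => mem_range.2 (hA b hb)
      have := card_le_card this
      rw [card_range] at this
      omega
  have h6 : (4 / (q : ℝ)) ^ (A.card - 1) = 2 ^ (A.card - 1) * (2 / (q : ℝ)) ^ (A.card - 1) := by
    rw [← mul_pow]
    congr 1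
    ring
  rw [h6] at h4
  have h7 : (2 / (q : ℝ)) ^ (A.card - 1) * ‖α b₀‖ ≤ M := by
    have h8 : (0 : ℝ) < 2 ^ (A.card - 1) := by positivity
    have h9 : 2 ^ (A.card - 1) * ((2 / (q : ℝ)) ^ (A.card - 1) * ‖α b₀‖) ≤
        2 ^ (A.card - 1) * M := by
      calc _ = ‖α b₀‖ * (2 ^ (A.card - 1) * (2 / (q : ℝ)) ^ (A.card - 1)) := by ring
        _ ≤ _ := h4
    exact le_of_mul_le_mul_left h9 h8
  exact (mul_le_mul_of_nonneg_right h5 (norm_nonneg _)).trans h7

/-! ## All levels -/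

/-- the character `x ↦ exp (2 π i ω x / q ^ r)` -/
noncomputable def ev (q r : ℕ) (ω : ℤ) (x : ℕ) : ℂ :=
  Complex.exp (Complex.I * ω * (2 * Real.pi * x / (q ^ r : ℕ)))

theorem ev_norm (q r : ℕ) (ω : ℤ) (x : ℕ) : ‖ev q r ω x‖ = 1 := by
  unfold ev
  have e : Complex.I * (ω : ℂ) * (2 * Real.pi * x / (q ^ r : ℕ)) =
      ((ω * (2 * Real.pi * x / (q ^ r : ℕ)) : ℝ) : ℂ) * Complex.I := by
    push_cast
    ring
  rw [e, Complex.norm_exp_ofReal_mul_I]

theorem ev_split (q r : ℕ) (hq : 0 < q) (β : ℕ) (ω' : ℤ) (a b : ℕ) :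
    ev q (r + 1) (β + q * ω') (a * q ^ r + b) =
      zt q β ^ a * (ev q (r + 1) β b * ev q r ω' b) := by
  have hq' : (q : ℂ) ≠ 0 := by exact_mod_cast hq.ne'
  have e1 : zt q β ^ a = Complex.exp (Complex.I * (2 * Real.pi * β * a / q)) := by
    unfold zt
    rw [← Complex.exp_nat_mul]
    congr 1
    push_cast
    ring
  have e2 : Complex.exp (((ω' * a : ℤ) : ℂ) * (2 * Real.pi * Complex.I)) = 1 :=
    Complex.exp_int_mul_two_pi_mul_I _
  rw [e1, ← one_mul (Complex.exp (Complex.I * (2 * Real.pi * β * a / q))), ← e2]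
  unfold ev
  rw [← Complex.exp_add, ← Complex.exp_add, ← Complex.exp_add]
  congr 1
  push_cast
  field_simp
  ring

theorem ev_low (q r : ℕ) (hq : 0 < q) (β : ℕ) (ω' : ℤ) (b : ℕ) :
    ev q (r + 1) (β + q * ω') b = ev q (r + 1) β b * ev q r ω' b := by
  have h := ev_split q r hq β ω' 0 b
  rw [zero_mul, zero_add, pow_zero, one_mul] at h
  exact h

theorem hit (q : ℕ) (hq : 2 ≤ q) : ∀ (r : ℕ) (S : Finset ℤ), S.Nonempty →
    (∀ ω ∈ S, ∀ ω' ∈ S, (q : ℤ) ^ r ∣ ω - ω' → ω = ω') → ∀ (c : ℤ → ℂ) (μ : ℝ),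
    (∀ ω ∈ S, μ ≤ ‖c ω‖) → ∃ x < q ^ r, wt q r x ≤ S.card ∧
      μ * ((2 / (q : ℝ)) ^ q) ^ r ≤ ‖∑ ω ∈ S, c ω * ev q r ω x‖ := by
  classical
  have hq0 : 0 < q := by omega
  have hqZ : (0 : ℤ) < q := by exact_mod_cast hq0
  intro r
  induction r with
  | zero =>
    intro S hS hinj c μ hμ
    obtain ⟨ω, hω⟩ := hS
    have hS1 : S = {ω} := by
      ext ω'
      rw [mem_singleton]
      constructor
      · intro h
        exact hinj _ h _ hω (by simp)
      · rintro rfl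
        exact hω
    refine ⟨0, by simp, by simp [wt, hS1], ?_⟩
    rw [hS1, sum_singleton, norm_mul, ev_norm, pow_zero, mul_one, mul_one]
    exact hμ ω hω
  | succ r ih =>
    intro S hS hinj c μ hμ
    let res : ℤ → ℕ := fun ω => (ω % q).toNat
    have hres : ∀ ω, ((res ω : ℕ) : ℤ) = ω % q := fun ω =>
      Int.toNat_of_nonneg (Int.emod_nonneg _ hqZ.ne')
    have hdec : ∀ ω : ℤ, ω = (res ω : ℤ) + q * (ω / q) := by
      intro ω
      rw [hres]
      exact (Int.emod_add_mul_ediv ω q).symm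
    let A := S.image res
    have hA : ∀ b ∈ A, b < q := by
      intro b hb
      obtain ⟨ω, _, rfl⟩ := mem_image.1 hb
      have h1 := Int.emod_lt_of_pos ω hqZ
      rw [← hres] at h1
      exact_mod_cast h1
    let fb : ℕ → Finset ℤ := fun b => S.filter (fun ω => res ω = b)
    obtain ⟨b₀, hb₀, hmin⟩ := exists_min_image A (fun b => (fb b).card) (hS.image _)
    have hprod : A.card * (fb b₀).card ≤ S.card := by
      have h1 : S.card = ∑ b ∈ A, (fb b).card :=
        card_eq_sum_card_fiberwise (fun ω hω => mem_image_of_mem res hω)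
      rw [h1, ← smul_eq_mul]
      exact card_nsmul_le_sum _ _ _ hmin
    have hfb : ∀ ω ∈ fb b₀, ω ∈ S ∧ res ω = b₀ := fun ω hω => mem_filter.1 hω
    have hdec0 : ∀ ω ∈ fb b₀, ω = (b₀ : ℤ) + q * (ω / q) := by
      intro ω hω
      have h1 := hdec ω
      rw [(hfb ω hω).2] at h1
      exact h1
    let S' := (fb b₀).image (fun ω => ω / (q : ℤ))
    have hinjdiv : Set.InjOn (fun ω : ℤ => ω / (q : ℤ)) (fb b₀ : Finset ℤ) := by
      intro ω hω ω' hω' he
      rw [hdec0 ω hω, hdec0 ω' hω']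
      simp only at he
      rw [he]
    obtain ⟨x', hx', hwt, hval⟩ := ih S' (by
        obtain ⟨ω, hω, he⟩ := mem_image.1 hb₀
        exact ⟨ω / q, mem_image_of_mem _ (mem_filter.2 ⟨hω, he⟩)⟩) (by
        intro a ha a' ha' hdvd
        obtain ⟨ω, hω, rfl⟩ := mem_image.1 ha
        obtain ⟨ω', hω', rfl⟩ := mem_image.1 ha'
        have h1 : ω = ω' := by
          apply hinj ω (hfb ω hω).1 ω' (hfb ω' hω').1
          obtain ⟨t, ht⟩ := hdvd
          refine ⟨t, ?_⟩
          have h2 : ω - ω' = q * (ω / q - ω' / q) := by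
            have h3 := hdec0 ω hω
            have h4 := hdec0 ω' hω'
            linear_combination h3 - h4
          rw [h2, ht]
          ring
        rw [h1]) (fun ω' => c (b₀ + q * ω')) μ (by
        intro a ha
        obtain ⟨ω, hω, rfl⟩ := mem_image.1 ha
        rw [← hdec0 ω hω]
        exact hμ ω (hfb ω hω).1)
    have hS'c : S'.card ≤ (fb b₀).card := card_image_le
    let α : ℕ → ℂ := fun b => ∑ ω ∈ fb b, c ω * ev q (r + 1) ω x'
    have hα : ‖∑ ω ∈ S', c (b₀ + q * ω) * ev q r ω x'‖ = ‖α b₀‖ := by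
      have h1 : α b₀ = ev q (r + 1) b₀ x' * ∑ ω ∈ S', c (b₀ + q * ω) * ev q r ω x' := by
        show ∑ ω ∈ fb b₀, c ω * ev q (r + 1) ω x' = _
        rw [sum_image hinjdiv, mul_sum]
        apply sum_congr rfl
        intro ω hω
        have h2 : ev q (r + 1) ω x' = ev q (r + 1) b₀ x' * ev q r (ω / q) x' := by
          rw [← ev_low q r hq0, ← hdec0 ω hω]
        rw [h2, ← hdec0 ω hω]
        ring
      rw [h1, norm_mul, ev_norm, one_mul]
    obtain ⟨y, hy, hlev⟩ := level q hq A hA α b₀ hb₀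
    have hyq : y < q := by
      have : A ⊆ range q := fun b hb => mem_range.2 (hA b hb)
      have := card_le_card this
      rw [card_range] at this
      omega
    refine ⟨y * q ^ r + x', ?_, ?_, ?_⟩
    · calc y * q ^ r + x' < y * q ^ r + q ^ r := by omega
        _ = (y + 1) * q ^ r := by ring
        _ ≤ q * q ^ r := Nat.mul_le_mul_right _ hyq
        _ = q ^ (r + 1) := by ring
    · rw [wt_succ q r y x' hyq hx']
      calc (y + 1) * wt q r x' ≤ A.card * (fb b₀).card :=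
            Nat.mul_le_mul hy (hwt.trans hS'c)
        _ ≤ S.card := hprod
    · have h1 : ∑ ω ∈ S, c ω * ev q (r + 1) ω (y * q ^ r + x') = ∑ b ∈ A, α b * zt q b ^ y := by
        rw [← sum_fiberwise_of_maps_to (fun ω hω => mem_image_of_mem res hω)]
        apply sum_congr rfl
        intro b _
        show _ = (∑ ω ∈ fb b, c ω * ev q (r + 1) ω x') * zt q b ^ y
        rw [sum_mul]
        apply sum_congr rfl
        intro ω hω
        have hb : res ω = b := (mem_filter.1 hω).2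
        have h2 : ev q (r + 1) ω (y * q ^ r + x') = zt q b ^ y * ev q (r + 1) ω x' := by
          rw [← hb]
          conv_lhs => rw [hdec ω]
          conv_rhs => rw [hdec ω]
          rw [ev_split q r hq0, ev_low q r hq0]
          rw [← hdec ω]
        rw [h2]
        ring
      rw [h1]
      refine le_trans ?_ hlev
      rw [pow_succ]
      have h3 : (0 : ℝ) ≤ (2 / (q : ℝ)) ^ q := by positivity
      calc μ * (((2 / (q : ℝ)) ^ q) ^ r * (2 / (q : ℝ)) ^ q) =
            (2 / (q : ℝ)) ^ q * (μ * ((2 / (q : ℝ)) ^ q) ^ r) := by ring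
        _ ≤ (2 / (q : ℝ)) ^ q * ‖α b₀‖ := by
            rw [← hα]
            exact mul_le_mul_of_nonneg_left hval h3

/-! ## Oracle answers and admissible inputs -/

theorem ans_close (w : ℕ) (z v : ℂ) (h : Ans w z v) : ‖z - v‖ ≤ 1 / 2 ^ w := by
  have hw : (0 : ℝ) < 2 ^ w := by positivity
  let u : ℂ := ((round (2 ^ w * z.re) : ℤ) + (round (2 ^ w * z.im) : ℤ) * Complex.I) / 2 ^ w
  have hu : Grid w u := ⟨_, _, rfl⟩
  refine (h.2 u hu).trans ?_
  have e : z - u = (((2 ^ w * z.re - round (2 ^ w * z.re) : ℝ) : ℂ) +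
      ((2 ^ w * z.im - round (2 ^ w * z.im) : ℝ) : ℂ) * Complex.I) / 2 ^ w := by
    have h2 : (2 : ℂ) ^ w ≠ 0 := pow_ne_zero _ two_ne_zero
    rw [eq_div_iff h2, sub_mul]
    show z * 2 ^ w - ((round (2 ^ w * z.re) : ℤ) + (round (2 ^ w * z.im) : ℤ) * Complex.I) /
      2 ^ w * 2 ^ w = _
    rw [div_mul_cancel₀ _ h2]
    push_cast
    linear_combination (-(2 : ℂ) ^ w) * Complex.re_add_im z
  rw [e, norm_div, norm_pow, Complex.norm_ofNat]
  apply div_le_div_of_nonneg_right _ hw.le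
  refine (norm_add_le _ _).trans ?_
  rw [norm_mul, Complex.norm_I, mul_one, Complex.norm_real, Complex.norm_real, Real.norm_eq_abs,
    Real.norm_eq_abs]
  have h1 := abs_sub_round (2 ^ w * z.re)
  have h2 := abs_sub_round (2 ^ w * z.im)
  linarith

theorem grid_zero (b : ℕ) : Grid b 0 := ⟨0, 0, by simp⟩

theorem grid_sub {b : ℕ} {x y : ℂ} (hx : Grid b x) (hy : Grid b y) : Grid b (x - y) := by
  obtain ⟨s, t, rfl⟩ := hx
  obtain ⟨s', t', rfl⟩ := hy
  refine ⟨s - s', t - t', ?_⟩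
  push_cast
  ring

theorem grid_norm {b : ℕ} {x : ℂ} (hx : Grid b x) (h0 : x ≠ 0) : 1 / 2 ^ b ≤ ‖x‖ := by
  obtain ⟨s, t, rfl⟩ := hx
  rw [norm_div, norm_pow, Complex.norm_ofNat]
  apply div_le_div_of_nonneg_right _ (by positivity)
  have h1 : ¬ (s = 0 ∧ t = 0) := by
    rintro ⟨rfl, rfl⟩
    apply h0
    simp
  have h2 : (1 : ℤ) ≤ s * s + t * t := by
    by_contra h3
    have h4 : s * s + t * t ≤ 0 := by omega
    apply h1
    constructor <;> nlinarith [mul_self_nonneg s, mul_self_nonneg t]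
  have h5 : Complex.normSq ((s : ℂ) + t * Complex.I) = s * s + t * t := by
    have e : ((s : ℂ) + t * Complex.I) = ((s : ℝ) : ℂ) + ((t : ℝ) : ℂ) * Complex.I := by
      push_cast
      rfl
    rw [e, Complex.normSq_add_mul_I]
    ring
  have h6 : (1 : ℝ) ≤ ‖(s : ℂ) + t * Complex.I‖ ^ 2 := by
    rw [← Complex.normSq_eq_norm_sq, h5]
    exact_mod_cast h2
  have h7 := norm_nonneg ((s : ℂ) + t * Complex.I)
  nlinarith

theorem adm_grid {k N B : ℕ} {f : ℤ →₀ ℂ} (hf : Adm k N B f) (ω : ℤ) : Grid B (f ω) := by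
  by_cases h : ω ∈ f.support
  · exact hf.grid ω h
  · rw [Finsupp.notMem_support_iff.1 h]
    exact grid_zero B

theorem val_sub (f g : ℤ →₀ ℂ) (a m : ℕ) : val (f - g) a m = val f a m - val g a m := by
  have h := Finsupp.sum_sub_index (f := f) (g := g)
    (h := fun ω z => z * Complex.exp (Complex.I * ω * (2 * Real.pi * a / m)))
    (fun _ _ _ => by ring)
  exact h

/-! ## The main argument -/

theorem unique_of_width (q : ℕ) (hq : 2 ≤ q) (k N B w : ℕ) (hw : 2 * 2 ^ B * (2 * N * q) ^ q < 2 ^ w)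
    (hN : 1 ≤ N) (f g : ℤ →₀ ℂ) (hf : Adm k N B f) (hg : Adm k N B g)
    (hans : ∀ a ∈ cross q (Nat.log q (2 * N) + 1) (2 * k),
      ∃ v, Ans w (val f a (q ^ (Nat.log q (2 * N) + 1))) v ∧
        Ans w (val g a (q ^ (Nat.log q (2 * N) + 1))) v) : f = g := by
  classical
  by_contra hne
  set r := Nat.log q (2 * N) + 1 with hr
  have hqr : (2 : ℝ) ≤ q := by exact_mod_cast hq
  have hq0 : (0 : ℝ) < q := by linarith
  have hpow : 2 * N < q ^ r := Nat.lt_pow_succ_log_self (by omega) _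
  have hpow2 : q ^ r ≤ 2 * N * q := by
    rw [hr, pow_succ]
    exact Nat.mul_le_mul_right _ (Nat.pow_log_le_self q (by omega))
  let h := f - g
  have hS : h.support.Nonempty := by
    rw [Finsupp.support_nonempty_iff]
    exact sub_ne_zero.2 hne
  have hsub : h.support ⊆ f.support ∪ g.support := Finsupp.support_sub
  have hdeg : ∀ ω ∈ h.support, |ω| ≤ N := by
    intro ω hω
    rcases mem_union.1 (hsub hω) with h1 | h1
    · exact hf.deg ω h1
    · exact hg.deg ω h1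
  have hcard : h.support.card ≤ 2 * k := by
    have h1 := card_le_card hsub
    have h2 := card_union_le f.support g.support
    have h3 := hf.card
    have h4 := hg.card
    omega
  obtain ⟨x, hx, hwt, hval⟩ := hit q hq r h.support hS (by
      intro ω hω ω' hω' hdvd
      have h1 : |ω - ω'| < (q : ℤ) ^ r := by
        have h2 : |ω - ω'| ≤ |ω| + |ω'| := abs_sub _ _
        have h3 := hdeg ω hω
        have h4 := hdeg ω' hω'
        have h5 : ((2 * N : ℕ) : ℤ) < ((q ^ r : ℕ) : ℤ) := by exact_mod_cast hpow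
        push_cast at h5
        linarith
      exact sub_eq_zero.1 (Int.eq_zero_of_abs_lt_dvd hdvd h1)) (fun ω => h ω) (1 / 2 ^ B) (by
      intro ω hω
      exact grid_norm (grid_sub (adm_grid hf ω) (adm_grid hg ω)) (Finsupp.mem_support_iff.1 hω))
  have hxX : x ∈ cross q r (2 * k) := mem_filter.2 ⟨mem_range.2 hx, hwt.trans hcard⟩
  obtain ⟨v, hv1, hv2⟩ := hans x hxX
  have h1 : ‖val h x (q ^ r)‖ ≤ 2 / 2 ^ w := by
    rw [val_sub]
    have e : val f x (q ^ r) - val g x (q ^ r) =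
        (val f x (q ^ r) - v) - (val g x (q ^ r) - v) := by ring
    rw [e]
    refine (norm_sub_le _ _).trans ?_
    have h2 := ans_close w _ _ hv1
    have h3 := ans_close w _ _ hv2
    calc _ ≤ (1 : ℝ) / 2 ^ w + 1 / 2 ^ w := add_le_add h2 h3
      _ = 2 / 2 ^ w := by ring
  have h2 : 1 / 2 ^ B * ((2 / (q : ℝ)) ^ q) ^ r ≤ 2 / 2 ^ w := hval.trans h1
  have h3 : 1 / ((2 * N * q : ℕ) : ℝ) ^ q ≤ ((2 / (q : ℝ)) ^ q) ^ r := by
    have h4 : ((2 / (q : ℝ)) ^ q) ^ r = (2 ^ q) ^ r / ((q : ℝ) ^ r) ^ q := by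
      rw [div_pow, div_pow]
      congr 1
      rw [← pow_mul, ← pow_mul, mul_comm]
    rw [h4]
    apply div_le_div₀
    · positivity
    · exact one_le_pow₀ (one_le_pow₀ (by norm_num))
    · positivity
    · apply pow_le_pow_left₀ (by positivity)
      exact_mod_cast hpow2
  have h5 : 1 / 2 ^ B * (1 / ((2 * N * q : ℕ) : ℝ) ^ q) ≤ 2 / 2 ^ w :=
    (mul_le_mul_of_nonneg_left h3 (by positivity)).trans h2
  have h6 : (0 : ℝ) < ((2 * N * q : ℕ) : ℝ) ^ q := by
    have : 0 < 2 * N * q := by positivity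
    positivity
  have h7 : ((2 : ℝ) ^ w) ≤ 2 * 2 ^ B * ((2 * N * q : ℕ) : ℝ) ^ q := by
    rw [one_div_mul_one_div, div_le_div_iff₀ (by positivity) (by positivity)] at h5
    linarith
  have h8 : (2 : ℝ) * 2 ^ B * ((2 * N * q : ℕ) : ℝ) ^ q < 2 ^ w := by exact_mod_cast hw
  linarith

theorem width (q : ℕ) (hq : 2 ≤ q) (N B w : ℕ) (hN : 1 ≤ N) (hB : 1 ≤ B)
    (hw : w = ⌈((2 * q ^ 2 + 3 : ℕ) : ℝ) * (Real.logb 2 N + B)⌉₊) :
    2 * 2 ^ B * (2 * N * q) ^ q < 2 ^ w := by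
  have hN' : (0 : ℝ) < N := by exact_mod_cast hN
  have h1 : N ^ (2 * q ^ 2 + 3) * (2 ^ B) ^ (2 * q ^ 2 + 3) ≤ 2 ^ w := by
    have h2 : ((N ^ (2 * q ^ 2 + 3) * (2 ^ B) ^ (2 * q ^ 2 + 3) : ℕ) : ℝ) ≤ ((2 ^ w : ℕ) : ℝ) := by
      have h3 : (2 : ℝ) ^ (Real.logb 2 N + B) = N * 2 ^ B := by
        rw [Real.rpow_add (by norm_num), Real.rpow_logb (by norm_num) (by norm_num) hN',
          Real.rpow_natCast]
      have h4 : (2 : ℝ) ^ (((2 * q ^ 2 + 3 : ℕ) : ℝ) * (Real.logb 2 N + B)) ≤ 2 ^ (w : ℝ) := by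
        apply Real.rpow_le_rpow_of_exponent_le (by norm_num)
        rw [hw]
        exact Nat.le_ceil _
      rw [mul_comm (((2 * q ^ 2 + 3 : ℕ) : ℝ)), Real.rpow_mul (by norm_num), h3,
        Real.rpow_natCast, Real.rpow_natCast, mul_pow] at h4
      push_cast
      exact h4
    exact_mod_cast h2
  refine lt_of_lt_of_le ?_ h1
  have h5 : (2 * q) ^ q ≤ 2 ^ (2 * q ^ 2) := by
    calc (2 * q) ^ q ≤ (2 ^ (2 * q)) ^ q := Nat.pow_le_pow_left (Nat.lt_two_pow_self).le _
      _ = 2 ^ (2 * q ^ 2) := by rw [← pow_mul]; congr 1; ring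
  have h6 : N ^ q ≤ N ^ (2 * q ^ 2 + 3) := Nat.pow_le_pow_right hN (by nlinarith)
  have h7 : 2 ^ B * 2 ^ (2 * q ^ 2 + 2) ≤ (2 ^ B) ^ (2 * q ^ 2 + 3) := by
    rw [← pow_add, ← pow_mul]
    apply Nat.pow_le_pow_right (by norm_num)
    nlinarith [Nat.zero_le (q ^ 2)]
  have h8 : 0 < N ^ q := by positivity
  calc 2 * 2 ^ B * (2 * N * q) ^ q = N ^ q * (2 ^ B * (2 * (2 * q) ^ q)) := by
        rw [show 2 * N * q = N * (2 * q) by ring, mul_pow]
        ring
    _ ≤ N ^ q * (2 ^ B * (2 * 2 ^ (2 * q ^ 2))) := by gcongr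
    _ < N ^ q * (2 ^ B * 2 ^ (2 * q ^ 2 + 2)) := by
        apply Nat.mul_lt_mul_of_pos_left _ h8
        apply Nat.mul_lt_mul_of_pos_left _ (by positivity)
        rw [← pow_succ']
        exact Nat.pow_lt_pow_right (by norm_num) (by omega)
    _ ≤ N ^ (2 * q ^ 2 + 3) * (2 ^ B) ^ (2 * q ^ 2 + 3) := Nat.mul_le_mul h6 h7

theorem exists_base (ε : ℝ) (hε : 0 < ε) :
    ∃ q : ℕ, 2 ≤ q ∧ Real.log (1 + Real.log q) ≤ ε * Real.log q := by
  have h1 : Filter.Tendsto (fun q : ℕ => 1 + Real.log q) Filter.atTop Filter.atTop :=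
    Filter.tendsto_atTop_add_const_left _ _
      (Real.tendsto_log_atTop.comp tendsto_natCast_atTop_atTop)
  have h2 := (Real.isLittleO_log_id_atTop.bound (half_pos hε))
  have h3 := h1.eventually h2
  have h4 := h1.eventually (Filter.eventually_ge_atTop (2 : ℝ))
  have h5 : ∀ᶠ q : ℕ in Filter.atTop, 2 ≤ q := Filter.eventually_ge_atTop 2
  obtain ⟨q, ha, hb, hc⟩ := (h3.and (h4.and h5)).exists
  refine ⟨q, hc, ?_⟩
  rw [id, Real.norm_eq_abs, Real.norm_eq_abs, abs_of_nonneg (by linarith : 0 ≤ 1 + Real.log q)] at ha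
  have h6 := le_abs_self (Real.log (1 + Real.log q))
  nlinarith

theorem size (ε : ℝ) (q : ℕ) (hq : 2 ≤ q) (hlog : Real.log (1 + Real.log q) ≤ ε * Real.log q)
    (hε : 0 < ε) (k N : ℕ) (hN : 1 ≤ N) :
    ((cross q (Nat.log q (2 * N) + 1) (2 * k)).card : ℝ) ≤
      2 * (1 + Real.log q) * 2 ^ ε * k * (N : ℝ) ^ ε := by
  have h1 := card_cross q (Nat.log q (2 * N) + 1) (2 * k)
  have hq' : (2 : ℝ) ≤ q := by exact_mod_cast hq
  have hlq : 0 < Real.log q := Real.log_pos (by linarith)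
  have hN' : (0 : ℝ) < N := by exact_mod_cast hN
  have h2 : (1 + Real.log q) ^ Nat.log q (2 * N) ≤ 2 ^ ε * (N : ℝ) ^ ε := by
    have h3 : (1 + Real.log q) ≤ (q : ℝ) ^ ε := by
      rw [← Real.log_le_log_iff (by linarith) (by positivity), Real.log_rpow (by linarith)]
      exact hlog
    calc (1 + Real.log q) ^ Nat.log q (2 * N) ≤ ((q : ℝ) ^ ε) ^ Nat.log q (2 * N) :=
          pow_le_pow_left₀ (by linarith) h3 _
      _ = ((q : ℝ) ^ Nat.log q (2 * N)) ^ ε := by
          rw [← Real.rpow_natCast, ← Real.rpow_natCast, ← Real.rpow_mul (by linarith),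
            ← Real.rpow_mul (by linarith), mul_comm]
      _ ≤ (((2 * N : ℕ)) : ℝ) ^ ε := by
          apply Real.rpow_le_rpow (by positivity) _ hε.le
          exact_mod_cast Nat.pow_log_le_self q (by omega)
      _ = 2 ^ ε * (N : ℝ) ^ ε := by
          push_cast
          rw [Real.mul_rpow (by norm_num) hN'.le]
  refine h1.trans ?_
  rw [pow_succ]
  push_cast
  have h4 : (0 : ℝ) ≤ 2 * k * (1 + Real.log q) := by positivity
  calc 2 * (k : ℝ) * ((1 + Real.log q) ^ Nat.log q (2 * N) * (1 + Real.log q)) =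
        2 * k * (1 + Real.log q) * (1 + Real.log q) ^ Nat.log q (2 * N) := by ring
    _ ≤ 2 * k * (1 + Real.log q) * (2 ^ ε * (N : ℝ) ^ ε) := mul_le_mul_of_nonneg_left h2 h4
    _ = _ := by ring

/-- **Explicit nonadaptive recovery from nearly `k` samples.**  For each `ε > 0` there are a base
`q`, a word length constant `C₀` and a constant `C` such that for all `k, N, B ≥ 1` the explicit
set `cross q r (2 k)` of at most `C k N ^ ε` sample positions determines every admissible input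
from the oracle answers. -/
theorem result (ε : ℝ) (hε : 0 < ε) :
    ∃ q C₀ : ℕ, 2 ≤ q ∧ 2 ≤ C₀ ∧ ∃ C : ℝ, ∀ k N B : ℕ, 1 ≤ k → 1 ≤ N → 1 ≤ B →
      ∀ r w : ℕ, r = Nat.log q (2 * N) + 1 → w = ⌈(C₀ : ℝ) * (Real.logb 2 N + B)⌉₊ →
        ((cross q r (2 * k)).card : ℝ) ≤ C * k * (N : ℝ) ^ ε ∧ q ^ r < 2 ^ w ∧
        ∃ dec : (ℕ → ℂ) → (ℤ →₀ ℂ), ∀ f : ℤ →₀ ℂ, Adm k N B f → ∀ v : ℕ → ℂ,
          (∀ a ∈ cross q r (2 * k), Ans w (val f a (q ^ r)) (v a)) → dec v = f := by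
  classical
  obtain ⟨q, hq, hlog⟩ := exists_base ε hε
  refine ⟨q, 2 * q ^ 2 + 3, hq, by omega, 2 * (1 + Real.log q) * 2 ^ ε, ?_⟩
  intro k N B _ hN hB r w hr hw
  subst hr
  have hwid := width q hq N B w hN hB hw
  refine ⟨size ε q hq hlog hε k N hN, ?_, ?_⟩
  · have h1 : q ^ (Nat.log q (2 * N) + 1) ≤ 2 * N * q := by
      rw [pow_succ]
      exact Nat.mul_le_mul_right _ (Nat.pow_log_le_self q (by omega))
    have h2 : 2 * N * q ≤ (2 * N * q) ^ q := Nat.le_self_pow (by omega) _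
    have h3 : (2 * N * q) ^ q ≤ 2 * 2 ^ B * (2 * N * q) ^ q :=
      Nat.le_mul_of_pos_left _ (by positivity)
    omega
  · refine ⟨fun v => if h : ∃ f : ℤ →₀ ℂ, Adm k N B f ∧
      (∀ a ∈ cross q (Nat.log q (2 * N) + 1) (2 * k),
        Ans w (val f a (q ^ (Nat.log q (2 * N) + 1))) (v a)) then h.choose else 0, ?_⟩
    intro f hf v hv
    have h : ∃ f : ℤ →₀ ℂ, Adm k N B f ∧
      (∀ a ∈ cross q (Nat.log q (2 * N) + 1) (2 * k),
        Ans w (val f a (q ^ (Nat.log q (2 * N) + 1))) (v a)) := ⟨f, hf, hv⟩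
    show (if h : _ then _ else _) = f
    rw [dif_pos h]
    exact unique_of_width q hq k N B w hwid hN _ _ h.choose_spec.1 hf
      (fun a ha => ⟨v a, h.choose_spec.2 a ha, hv a ha⟩)

end Pool.Agent.Results.MP_66dcb2_lc.ExplicitSamples
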